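import Pool.Agent.Lib.MP_eb7570_an.Spec

/-!
# MP_eb7570_an: the conjecture of Payne, Polya and Weinberger for (lambda2 + lambda3) / lambda1

The form of this file uses the Dirichlet spectrum in the sense of orthonormal bases of
eigenfunctions in `H¹₀(Ω)` and the explicit value of the disk in terms of Bessel functions.
-/

set_option autoImplicit false

open MeasureTheory Filter Topology Metric Set
open scoped Nat

namespace Pool.Agent.Results.MP_eb7570_an.EigenbasisForm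

open Pool.Agent.PPW

/-- The Bessel function of the first kind `J n`. -/
noncomputable def besselJ (n : ℕ) (x : ℝ) : ℝ :=
  ∑' k : ℕ, (-1) ^ k / ((k ! : ℝ) * ((k + n)! : ℝ)) * (x / 2) ^ (2 * k + n)

private theorem besselJ_eq (n : ℕ) (x : ℝ) :
    besselJ n x = (x / 2) ^ n * Bes.F n (x ^ 2 / 4) := by
  unfold besselJ Bes.F
  rw [← tsum_mul_left]
  refine tsum_congr fun k => ?_
  unfold Bes.trm
  have h1 : (-(x ^ 2 / 4)) ^ k = (-1) ^ k * (x / 2) ^ (2 * k) := by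
    rw [pow_mul, ← mul_pow]
    congr 1
    ring
  rw [h1, pow_add]
  ring

private theorem sq_two_sqrt {s : ℝ} (hs : 0 ≤ s) : (2 * Real.sqrt s) ^ 2 / 4 = s := by
  rw [mul_pow, Real.sq_sqrt hs]
  ring

private theorem le_of_sq {s x : ℝ} (hx : 0 < x) (h : s ≤ x ^ 2 / 4) : 2 * Real.sqrt s ≤ x := by
  have h1 : Real.sqrt s ≤ x / 2 := by
    apply Real.sqrt_le_iff.2
    constructor
    · positivity
    · rw [div_pow]
      linarith
  linarith

private theorem j0_least :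
    IsLeast {x : ℝ | 0 < x ∧ besselJ 0 x = 0} (2 * Real.sqrt Bes.s0) := by
  have h0 := Bes.s0_pos
  constructor
  · refine ⟨by positivity, ?_⟩
    rw [besselJ_eq, sq_two_sqrt h0.le, Bes.F0_s0, mul_zero]
  · rintro x ⟨hx, h⟩
    rw [besselJ_eq, pow_zero, one_mul] at h
    apply le_of_sq hx
    by_contra hlt
    push Not at hlt
    have := Bes.F0_pos (by positivity) hlt
    linarith

private theorem j1_least :
    IsLeast {x : ℝ | 0 < x ∧ besselJ 1 x = 0} (2 * Real.sqrt Bes.s1) := by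
  have h0 := Bes.s1_pos
  constructor
  · refine ⟨by positivity, ?_⟩
    rw [besselJ_eq, sq_two_sqrt h0.le, Bes.F1_s1, mul_zero]
  · rintro x ⟨hx, h⟩
    rw [besselJ_eq, pow_one] at h
    have h' : Bes.F 1 (x ^ 2 / 4) = 0 := by
      rcases mul_eq_zero.1 h with h1 | h1
      · linarith
      · exact h1
    apply le_of_sq hx
    by_contra hlt
    push Not at hlt
    have := Bes.F1_pos (by positivity) hlt
    linarith

/-! ### Translations -/

private theorem adm_tr {k : ℕ} {Ω : Set E2} {t : ℝ} (c : E2) (ht : t ∈ admS k Ω) :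
    t ∈ admS k ((fun x : E2 => x - c) ⁻¹' Ω) := by
  obtain ⟨V, hV, h1, h2⟩ := ht
  set L : (E2 → ℝ) ≃ₗ[ℝ] (E2 → ℝ) :=
    LinearEquiv.funCongrLeft ℝ ℝ (Homeomorph.subRight c).toEquiv with hL
  refine ⟨V.map (L : (E2 → ℝ) →ₗ[ℝ] (E2 → ℝ)), ?_, ?_, ?_⟩
  · rw [← hV]
    exact LinearEquiv.finrank_map_eq L V
  · rintro _ ⟨u, hu, rfl⟩
    obtain ⟨a, b, d⟩ := h1 u hu
    refine ⟨a.comp (contDiff_id.sub contDiff_const), b.comp_homeomorph (Homeomorph.subRight c), ?_⟩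
    show tsupport (fun x => u (x - c)) ⊆ _
    have h3 : tsupport (fun x => u (x - c)) = (fun x : E2 => x - c) ⁻¹' tsupport u :=
      tsupport_comp_eq_preimage u (Homeomorph.subRight c)
    rw [h3]
    exact preimage_mono d
  · rintro _ ⟨u, hu, rfl⟩
    have h3 := h2 u hu
    show (∫ x, ‖fderiv ℝ (fun y => u (y - c)) x‖ ^ 2) ≤ t * ∫ x, (u (x - c)) ^ 2
    have h4 : ∫ x, ‖fderiv ℝ (fun y => u (y - c)) x‖ ^ 2 = ∫ x, ‖fderiv ℝ u x‖ ^ 2 := by
      simp only [fderiv_comp_sub]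
      exact integral_sub_right_eq_self (fun x => ‖fderiv ℝ u x‖ ^ 2) c
    have h5 : ∫ x, (u (x - c)) ^ 2 = ∫ x, (u x) ^ 2 :=
      integral_sub_right_eq_self (fun x => (u x) ^ 2) c
    rw [h4, h5]
    exact h3

private theorem lamk_tr (k : ℕ) (Ω : Set E2) (c : E2) :
    lamk k ((fun x : E2 => x - c) ⁻¹' Ω) = lamk k Ω := by
  have hset : admS k ((fun x : E2 => x - c) ⁻¹' Ω) = admS k Ω := by
    apply Subset.antisymm
    · intro t ht
      have h1 := adm_tr (-c) ht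
      have h2 : (fun x : E2 => x - -c) ⁻¹' ((fun x : E2 => x - c) ⁻¹' Ω) = Ω := by
        ext x
        simp
      rwa [h2] at h1
    · exact fun t ht => adm_tr c ht
  unfold lamk
  rw [hset]

private theorem lamk_ball (k : ℕ) (c : E2) {R : ℝ} (hR : 0 < R) :
    lamk k (ball c R) = lamk k (ball (0 : E2) 1) / R ^ 2 := by
  have h1 : ball c R = (fun x : E2 => x - c) ⁻¹' ((fun x : E2 => R⁻¹ • x) ⁻¹' ball (0 : E2) 1) := by
    ext x
    simp only [mem_ball, mem_preimage, dist_zero_right, norm_smul, norm_inv, Real.norm_eq_abs,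
      abs_of_pos hR]
    rw [dist_eq_norm, inv_mul_lt_iff₀ hR, mul_one]
  rw [h1, lamk_tr, lamk_smul _ _ (inv_pos.2 hR)]
  field_simp

/-! ### The disk -/

private theorem disk_values : lamk 1 (ball (0 : E2) 1) = 4 * Bes.s0 ∧
    lamk 2 (ball (0 : E2) 1) = 4 * Bes.s1 ∧ lamk 3 (ball (0 : E2) 1) = 4 * Bes.s1 := by
  have hB : Dom (ball (0 : E2) 1) :=
    ⟨isOpen_ball, isBounded_ball, ⟨0, mem_ball_self one_pos⟩⟩
  have h1 : lamk 1 (ball (0 : E2) 1) = 4 * Bes.s0 := le_antisymm disk_lam1_le disk_lam1_ge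
  have h2 : 4 * Bes.s1 ≤ lamk 2 (ball (0 : E2) 1) := disk_lam_ge le_rfl
  have h3 : 4 * Bes.s1 ≤ lamk 3 (ball (0 : E2) 1) := disk_lam_ge (by norm_num)
  have key := sum_le_all nearDisk stripPart hB
  have hs0 := Bes.s0_pos
  have hC : (2 + Bes.C0) * (4 * Bes.s0) = 8 * Bes.s1 := by
    unfold Bes.C0 Bes.kap2
    field_simp
    ring
  rw [h1, hC] at key
  exact ⟨h1, by linarith, by linarith⟩

/-- The Dirichlet eigenvalues, in the sense of an eigenbasis or of the min-max principle. -/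
def IsSpec (Ω : Set (EuclideanSpace ℝ (Fin 2))) (lam : ℕ → ℝ) : Prop :=
  IsDirichletSpectrum Ω lam ∨ lam = minMax Ω

/-- Q1 (Payne, Polya, Weinberger). With `j0`, `j1` the first positive zeros of the Bessel
functions `J 0`, `J 1`:
* for every nonempty bounded open plane set `Ω` with Dirichlet spectrum `lam 0 ≤ lam 1 ≤ …` we
  have `lam 0 > 0` and `(lam 1 + lam 2) / lam 0 ≤ 2 (j1 / j0)²`;
* for every disk the first three eigenvalues are `(j0 / R)²`, `(j1 / R)²`, `(j1 / R)²`;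
* so `(lam 1 + lam 2) / lam 0 ≤ (mu 1 + mu 2) / mu 0` for `Ω` and every disk;
* every Dirichlet spectrum is the list of the min-max numbers. -/
theorem result : ∃ j0 j1 : ℝ,
    IsLeast {x : ℝ | 0 < x ∧ besselJ 0 x = 0} j0 ∧
    IsLeast {x : ℝ | 0 < x ∧ besselJ 1 x = 0} j1 ∧
    (∀ Ω, Dom Ω → ∀ lam, IsSpec Ω lam →
      0 < lam 0 ∧ (lam 1 + lam 2) / lam 0 ≤ 2 * (j1 / j0) ^ 2) ∧
    (∀ c R, 0 < R → ∀ mu, IsSpec (ball c R) mu →
      mu 0 = (j0 / R) ^ 2 ∧ mu 1 = (j1 / R) ^ 2 ∧ mu 2 = (j1 / R) ^ 2) ∧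
    (∀ Ω, Dom Ω → ∀ c R, 0 < R → ∀ lam mu, IsSpec Ω lam → IsSpec (ball c R) mu →
      (lam 1 + lam 2) / lam 0 ≤ (mu 1 + mu 2) / mu 0) ∧
    ∀ Ω, Dom Ω → ∀ lam, IsDirichletSpectrum Ω lam → lam = minMax Ω := by
  have hs0 := Bes.s0_pos
  have hs1 := Bes.s1_pos
  set j0 : ℝ := 2 * Real.sqrt Bes.s0 with hj0
  set j1 : ℝ := 2 * Real.sqrt Bes.s1 with hj1
  have hj0p : 0 < j0 := by positivity
  have hj1p : 0 < j1 := by positivity
  have hj0s : j0 ^ 2 = 4 * Bes.s0 := by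
    rw [hj0, mul_pow, Real.sq_sqrt hs0.le]
    norm_num
  have hj1s : j1 ^ 2 = 4 * Bes.s1 := by
    rw [hj1, mul_pow, Real.sq_sqrt hs1.le]
    norm_num
  have hC : 2 + Bes.C0 = 2 * (j1 / j0) ^ 2 := by
    rw [div_pow, hj0s, hj1s]
    unfold Bes.C0 Bes.kap2
    field_simp
    ring
  have hmm : ∀ (k : ℕ) (S : Set (EuclideanSpace ℝ (Fin 2))), minMax S k = lamk (k + 1) S :=
    fun k S => rfl
  have hsp : ∀ Ω, Dom Ω → ∀ lam, IsDirichletSpectrum Ω lam → lam = minMax Ω := by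
    intro Ω hΩ lam h
    funext k
    rw [hmm]
    exact spectrum_eq hΩ h k
  have hsp' : ∀ Ω, Dom Ω → ∀ lam, IsSpec Ω lam → ∀ k, lam k = lamk (k + 1) Ω := by
    rintro Ω hΩ lam (h | h) k
    · exact spectrum_eq hΩ h k
    · rw [h, hmm]
  have hmain : ∀ Ω : Set (EuclideanSpace ℝ (Fin 2)), Dom Ω →
      0 < lamk 1 Ω ∧ (lamk 2 Ω + lamk 3 Ω) / lamk 1 Ω ≤ 2 * (j1 / j0) ^ 2 := by
    intro Ω hΩ
    have p1 := lamk_one_pos hΩ
    refine ⟨p1, ?_⟩
    rw [div_le_iff₀ p1, ← hC]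
    exact sum_le_all nearDisk stripPart hΩ
  have hball : ∀ (c : EuclideanSpace ℝ (Fin 2)) (R : ℝ), 0 < R →
      lamk 1 (ball c R) = (j0 / R) ^ 2 ∧ lamk 2 (ball c R) = (j1 / R) ^ 2 ∧
        lamk 3 (ball c R) = (j1 / R) ^ 2 := by
    intro c R hR
    obtain ⟨h1, h2, h3⟩ := disk_values
    rw [lamk_ball 1 c hR, lamk_ball 2 c hR, lamk_ball 3 c hR, h1, h2, h3, div_pow, div_pow,
      hj0s, hj1s]
    exact ⟨rfl, rfl, rfl⟩
  have hdom : ∀ (c : EuclideanSpace ℝ (Fin 2)) (R : ℝ), 0 < R → Dom (ball c R) :=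
    fun c R hR => ⟨isOpen_ball, isBounded_ball, ⟨c, mem_ball_self hR⟩⟩
  have hA : ∀ Ω : Set (EuclideanSpace ℝ (Fin 2)), Dom Ω → ∀ lam : ℕ → ℝ,
      IsSpec Ω lam → 0 < lam 0 ∧ (lam 1 + lam 2) / lam 0 ≤ 2 * (j1 / j0) ^ 2 := by
    intro Ω hΩ lam h
    rw [hsp' Ω hΩ lam h 0, hsp' Ω hΩ lam h 1, hsp' Ω hΩ lam h 2]
    exact hmain Ω hΩ
  have hBd : ∀ (c : EuclideanSpace ℝ (Fin 2)) (R : ℝ), 0 < R →
      ∀ mu : ℕ → ℝ, IsSpec (ball c R) mu →
        mu 0 = (j0 / R) ^ 2 ∧ mu 1 = (j1 / R) ^ 2 ∧ mu 2 = (j1 / R) ^ 2 := by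
    intro c R hR mu h
    obtain ⟨h1, h2, h3⟩ := hball c R hR
    have e0 := hsp' _ (hdom c R hR) mu h 0
    have e1 := hsp' _ (hdom c R hR) mu h 1
    have e2 := hsp' _ (hdom c R hR) mu h 2
    rw [zero_add, h1] at e0
    rw [show (1 + 1 : ℕ) = 2 from rfl, h2] at e1
    rw [show (2 + 1 : ℕ) = 3 from rfl, h3] at e2
    exact ⟨e0, e1, e2⟩
  refine ⟨j0, j1, j0_least, j1_least, hA, hBd, ?_, hsp⟩
  intro Ω hΩ c R hR lam mu hl hm
  obtain ⟨e0, e1, e2⟩ := hBd c R hR mu hm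
  have h1 : (mu 1 + mu 2) / mu 0 = 2 * (j1 / j0) ^ 2 := by
    rw [e0, e1, e2]
    field_simp
    ring
  rw [h1]
  exact (hA Ω hΩ lam hl).2

end Pool.Agent.Results.MP_eb7570_an.EigenbasisForm
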